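import Mathlib
import Pool.Agent.Lib.GJ.Final

/-!
# The dimension function of the spectrum of the golden ratio is not continuous
-/

open Filter

namespace Pool.Agent.Results.MP_c51bb9_nt.GoldenRatioJump

/-- The distance to the nearest integer. -/
noncomputable def distInt (x : ℝ) : ℝ := |x - round x|

/-- The set of all limits superior of the distances of `ξ α ^ n` to the nearest integers. -/
def spectrum (α : ℝ) : Set ℝ := {v | ∃ ξ : ℝ, v = limsup (fun n : ℕ => distInt (ξ * α ^ n)) atTop}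

/-- The Hausdorff dimension of the part of the spectrum in `[0, t]`. -/
noncomputable def D (α t : ℝ) : ENNReal := dimH (spectrum α ∩ Set.Icc 0 t)

/-- Quadratic units: algebraic integers of degree two and norm `1` or `-1` that are greater than one
(the norm is the constant coefficient of the minimal polynomial). -/
def IsQuadraticUnit (α : ℝ) : Prop :=
  1 < α ∧ IsIntegral ℤ α ∧ (minpoly ℚ α).natDegree = 2 ∧
    ((minpoly ℚ α).coeff 0 = 1 ∨ (minpoly ℚ α).coeff 0 = -1)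

private lemma minpoly_phi :
    minpoly ℚ ((1 + Real.sqrt 5) / 2 : ℝ) = Polynomial.X ^ 2 - Polynomial.X - 1 := by
  have h5 : Real.sqrt 5 ^ 2 = 5 := Real.sq_sqrt (by norm_num)
  have hm : (Polynomial.X ^ 2 - Polynomial.X - 1 : Polynomial ℚ).Monic := by
    monicity!
  have hd : (Polynomial.X ^ 2 - Polynomial.X - 1 : Polynomial ℚ).natDegree = 2 := by
    compute_degree!
  symm
  refine minpoly.eq_of_irreducible_of_monic ?_ ?_ hm
  · refine Polynomial.irreducible_of_degree_le_three_of_not_isRoot ?_ ?_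
    · rw [hd]; simp
    · intro x hx
      simp only [Polynomial.IsRoot.def, Polynomial.eval_sub, Polynomial.eval_pow,
        Polynomial.eval_X, Polynomial.eval_one] at hx
      have h : (2 * x - 1) ^ 2 = 5 := by linear_combination 4 * hx
      have hR : ((2 * x - 1 : ℚ) : ℝ) ^ 2 = 5 := by exact_mod_cast congrArg (fun y : ℚ => (y : ℝ)) h
      have hirr : Irrational (Real.sqrt 5) := by
        have := Nat.Prime.irrational_sqrt (show Nat.Prime 5 by norm_num)
        exact_mod_cast this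
      have hsq : Real.sqrt 5 = |((2 * x - 1 : ℚ) : ℝ)| := by
        rw [← hR, Real.sqrt_sq_eq_abs]
      apply hirr
      refine ⟨|2 * x - 1|, ?_⟩
      rw [hsq]
      push_cast
      ring_nf
  · simp only [map_sub, map_pow, Polynomial.aeval_X, map_one]
    linear_combination h5 / 4

private lemma unit_phi : IsQuadraticUnit ((1 + Real.sqrt 5) / 2) := by
  have h5 : Real.sqrt 5 ^ 2 = 5 := Real.sq_sqrt (by norm_num)
  have h1 : (1 : ℝ) < Real.sqrt 5 := by
    rw [Real.lt_sqrt (by norm_num)]; norm_num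
  refine ⟨by linarith, ?_, ?_, ?_⟩
  · refine ⟨Polynomial.X ^ 2 - Polynomial.X - 1, by monicity!, ?_⟩
    simp only [Polynomial.eval₂_sub, Polynomial.eval₂_pow, Polynomial.eval₂_X,
      Polynomial.eval₂_one]
    linear_combination h5 / 4
  · rw [minpoly_phi]; compute_degree!
  · right
    rw [minpoly_phi]
    simp [Polynomial.coeff_X, Polynomial.coeff_one]

private lemma ph_val : Pool.Agent.Lib.GJ.ph = (1 + Real.sqrt 5) / 2 := rfl

private lemma t1_val : (2 - (1 + Real.sqrt 5) / 2 : ℝ) = (((1 + Real.sqrt 5) / 2) ^ 2)⁻¹ := by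
  have h5 : Real.sqrt 5 ^ 2 = 5 := Real.sq_sqrt (by norm_num)
  refine eq_inv_of_mul_eq_one_left ?_
  have h3 : Real.sqrt 5 ^ 3 = 5 * Real.sqrt 5 := by
    rw [pow_succ, h5]
  linear_combination (1 / 8 : ℝ) * h5 - (1 / 8 : ℝ) * h3

/-- The golden ratio `φ` is a quadratic unit, and the function `t ↦ D φ t` has a jump at
`t = φ ^ (-2)`: with `d₁ = log 1.598 / log (φ ^ 2)` one has `D φ t ≤ d₁` for all `t < φ ^ (-2)`, and there is
a `d₂ > d₁` with `d₂ ≤ D φ t` for all `t > φ ^ (-2)`. So `D φ` is not continuous on `[0, ∞)`. -/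
theorem result : ∃ φ : ℝ, φ = (1 + Real.sqrt 5) / 2 ∧ IsQuadraticUnit φ ∧
    (∃ d₁ d₂ : ℝ, d₁ = Real.log (1598 / 1000) / Real.log (φ ^ 2) ∧ d₁ < d₂ ∧
      (∀ t : ℝ, t < (φ ^ 2)⁻¹ → D φ t ≤ ENNReal.ofReal d₁) ∧
      (∀ t : ℝ, (φ ^ 2)⁻¹ < t → ENNReal.ofReal d₂ ≤ D φ t)) ∧
    ¬ ContinuousWithinAt (D φ) (Set.Ici 0) ((φ ^ 2)⁻¹) ∧
    ¬ ContinuousOn (D φ) (Set.Ici 0) := by
  refine ⟨(1 + Real.sqrt 5) / 2, rfl, unit_phi, ?_⟩
  obtain ⟨-, -, -, -, -, -, h4⟩ := Pool.Agent.Lib.GJ.jump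
  obtain ⟨d2, h1, h3⟩ := Pool.Agent.Lib.GJ.lower
  have h2 := Pool.Agent.Lib.GJ.upper
  rw [ph_val, t1_val] at h2 h3 h4
  refine ⟨⟨Real.log (1598 / 1000) / Real.log (((1 + Real.sqrt 5) / 2) ^ 2), d2, rfl, h1, fun t ht => ?_, h3⟩,
    h4, fun hc => h4 (hc _ ?_)⟩
  · refine le_trans (dimH_mono ?_) h2
    rintro v ⟨hv, -, hvt⟩
    exact ⟨hv, lt_of_le_of_lt hvt ht⟩
  · exact Set.mem_Ici.2 (by positivity)

end Pool.Agent.Results.MP_c51bb9_nt.GoldenRatioJump
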